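import Mathlib
import Pool.Agent.Lib.MP_20b9c8_an.Defs
import Pool.Agent.Lib.MP_20b9c8_an.Final

set_option autoImplicit false

namespace Pool.Agent.Results.MP_20b9c8_an.DiagonalMinimal

open Pool.Agent.Lib.MP_20b9c8_an

/-- Full (positive) answer to Q1: there is a minimal PI system `X` with an open, proximal,
non-injective factor map `π` onto an equicontinuous system `Y` such that `(x, x)` is a minimal
point of `(X × X, T × T ^ 2)` for every `x`. -/
theorem result : ∃ (X Y : Sys) (π : X.X → Y.X),
    IsMinimal X ∧ IsPI X ∧ IsEquicontinuous Y ∧ IsFactorMap X Y π ∧ IsOpenMap π ∧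
    IsProximalExt X Y π ∧ ¬ Function.Injective π ∧
    ∀ x : X.X, IsMinimalPoint (X.T.prodCongr (X.T ^ 2)) (x, x) :=
  exists_system

end Pool.Agent.Results.MP_20b9c8_an.DiagonalMinimal
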